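import Mathlib
import Pool.Agent.Run7.h478.FDefsU
import Pool.Agent.Run7.h478.FGlue

/-! Proper forcing and forcing with a chain condition do not create Chang's Conjecture principles
`(μ⁺, μ) ↠ (ℵ_2, ℵ_1)`, for `μ` of countable cofinality, unless the ground model has long chains in
`P(ω)/fin`. -/

set_option autoImplicit false

open Cardinal Run7.h478.U

/-- Let `μ` be an uncountable cardinal of countable cofinality, `|K| = μ⁺`, `B ⊆ K`, `|B| = μ`. Let
`p` be a condition of a forcing notion `P` which forces that `γ` has uncountable cofinality, that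
`κ` is regular and that `(|K|, |B|) ↠ (κ, γ)`. (For example, `γ` and `κ` may be the cardinals `ℵ_1`
and `ℵ_2` of the extension.) Let `lam ≤ κ` be an uncountable cardinal which is some `ℵ_{m+1}` or
satisfies `θ ^ ℵ₀ < lam` for all `θ < lam`. Assume that `p` forces that small sets are covered by
ground model sets of size less than `lam`, or that `lam = κ` is regular and `P` has the
`κ`-chain condition, or that `γ = ℵ_1`, `lam = ℵ_2` and `P` is proper. Then in the ground model
there is a strictly increasing chain of length `lam` in `P(ω)/fin`. -/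
theorem Pool.Agent.Results.MP_54abf9_lc.ForcingBarrier.result
    {P : Type} [Preorder P] (γ κ lam μ : Cardinal.{0}) (hγκ : γ < κ) (hlam : lam ≤ κ)
    (hlam' : ℵ₀ < lam)
    (hn : (∃ m : ℕ, lam = ℵ_ ((m : Ordinal.{0}) + 1)) ∨ ∀ θ < lam, θ ^ ℵ₀ < lam)
    (hμ : ℵ₀ < μ) (hcof : μ.ord.cof = ℵ₀) (K : Type) (B : Set K) (hK : #K = Order.succ μ)
    (hB : #B = μ) (p : P) (h1 : p ∈ BoundedBy P ℕ γ) (h2 : p ∈ Regular P κ)
    (h3 : p ∈ Covering P γ lam ∨ (lam = κ ∧ κ.IsRegular ∧ ChainCondition P κ) ∨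
      (γ = ℵ₁ ∧ lam = ℵ_ 2 ∧ IsProper P))
    (h : p ∈ Chang P K B κ γ) :
    ∃ A : Ordinal.{0} → Set ℕ, ∀ ξ η : Ordinal.{0}, ξ < η → η < lam.ord →
      (A ξ \ A η).Finite ∧ (A η \ A ξ).Infinite := by
  classical
  obtain ⟨hcu, hreg⟩ := cu_of_chang hγκ (hlam'.le.trans hlam) hlam hlam'.le hn hμ hcof hK hB h1 h2
    (covering_cases hγκ h3) h
  obtain ⟨A, hA⟩ := Run7.h478.chain_of_cu hreg hcu
  refine ⟨fun ξ => if hξ : ξ < lam.ord then A (Ordinal.ToType.mk ⟨ξ, hξ⟩) else ∅, ?_⟩
  intro ξ η h4 h5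
  have h6 := h4.trans h5
  simp only [dif_pos h5, dif_pos h6]
  exact hA _ _ (Ordinal.ToType.mk.lt_iff_lt.2 h4)
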