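import Mathlib
import Pool.Agent.Run7.h478.Defs
import Pool.Agent.Run7.h478.MainA

/-! The transfer principle `(μ⁺, μ) ↠ (ℵ_{m+1}, ℵ_m)`, with `μ` of countable cofinality, gives a
strictly increasing sequence of length `ω_{m+1}` of subsets of `ω` modulo finite sets. -/

set_option autoImplicit false

open Cardinal Run7.h478

/-- Let `μ` be an uncountable cardinal of countable cofinality and let `m` be a natural number. If
`(μ⁺, μ) ↠ (ℵ_{m+1}, ℵ_m)` then there are subsets `A ξ` of `ω`, for `ξ < ω_{m+1}`, such that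
`A ξ \ A η` is finite and `A η \ A ξ` is infinite whenever `ξ < η`. -/
theorem Pool.Agent.Results.MP_54abf9_lc.LongChain.result
    (μ : Cardinal.{0}) (hμ : ℵ₀ < μ) (hcof : μ.ord.cof = ℵ₀) (m : ℕ)
    (h : ChangTransfer (Order.succ μ) μ (ℵ_ ((m : Ordinal.{0}) + 1)) (ℵ_ (m : Ordinal.{0}))) :
    ∃ A : Ordinal.{0} → Set ℕ, ∀ ξ η : Ordinal.{0}, ξ < η →
      η < Ordinal.omega ((m : Ordinal.{0}) + 1) → (A ξ \ A η).Finite ∧ (A η \ A ξ).Infinite := by
  classical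
  obtain ⟨A, hA⟩ := mainA μ hμ hcof m h
  have hom : Ordinal.omega ((m : Ordinal.{0}) + 1) = (ℵ_ ((m : Ordinal.{0}) + 1)).ord :=
    (ord_aleph _).symm
  refine ⟨fun ξ => if hξ : ξ < (ℵ_ ((m : Ordinal.{0}) + 1)).ord then A (Ordinal.ToType.mk ⟨ξ, hξ⟩)
    else ∅, ?_⟩
  intro ξ η h1 h2
  rw [hom] at h2
  have h3 := h1.trans h2
  simp only [dif_pos h2, dif_pos h3]
  exact hA _ _ (Ordinal.ToType.mk.lt_iff_lt.2 h1)
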