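import Mathlib
import Pool.Agent.Run7.h478.Defs
import Pool.Agent.Run7.h478.Matrix

/-! The transfer principle `(μ⁺, μ) ↠ (ℵ_{m+1}, ℵ_m)`, with `μ` of countable cofinality, gives
countably many stationary sets of ordinals of countable cofinality whose patterns of reflection are
strictly increasing. -/

set_option autoImplicit false

open Cardinal Run7.h478

/-- Let `μ` be an uncountable cardinal of countable cofinality and let `m` be a natural number. If
`(μ⁺, μ) ↠ (ℵ_{m+1}, ℵ_m)` then there are sets `T n k` (`n, k < ω`) of ordinals of countable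
cofinality, stationary in `ω_{m+1}` and, for each `n`, linearly ordered by inclusion, such that for
all ordinals `δ < δ' < ω_{m+1}` of uncountable cofinality and all but finitely many `n`, the set of
those `k` for which `T n k` is stationary in `δ` is a proper subset of the set of those `k` for
which `T n k` is stationary in `δ'`. -/
theorem Pool.Agent.Results.MP_54abf9_lc.ReflectionMatrix.result
    (μ : Cardinal.{0}) (hμ : ℵ₀ < μ) (hcof : μ.ord.cof = ℵ₀) (m : ℕ)
    (h : ChangTransfer (Order.succ μ) μ (ℵ_ ((m : Ordinal.{0}) + 1)) (ℵ_ (m : Ordinal.{0}))) :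
    ∃ T : ℕ → ℕ → Set Ordinal.{0},
      (∀ n k, ∀ ξ ∈ T n k, ξ.cof = ℵ₀) ∧
      (∀ n k, IsStationary
        (Subtype.val ⁻¹' T n k : Set (Set.Iio (Ordinal.omega ((m : Ordinal.{0}) + 1))))) ∧
      (∀ n k l, T n k ⊆ T n l ∨ T n l ⊆ T n k) ∧
      ∀ δ δ' : Ordinal.{0}, δ < δ' → δ' < Ordinal.omega ((m : Ordinal.{0}) + 1) →
        ℵ₀ < δ.cof → ℵ₀ < δ'.cof → ∀ᶠ n in Filter.atTop,
          {k | IsStationary (Subtype.val ⁻¹' T n k : Set (Set.Iio δ))} ⊂
            {k | IsStationary (Subtype.val ⁻¹' T n k : Set (Set.Iio δ'))} := by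
  classical
  have hreg := isRegular_aleph_nat m
  have hκ : ℵ₀ < ℵ_ ((m : Ordinal.{0}) + 1) := by
    rw [lt_aleph_succ_iff]
    exact aleph0_le_aleph _
  obtain ⟨T, hT1, hT2, hT4, hT3⟩ := matrix_idx hreg hκ (mainB μ hμ hcof m h)
  have hom : Ordinal.omega ((m : Ordinal.{0}) + 1) = (ℵ_ ((m : Ordinal.{0}) + 1)).ord :=
    (ord_aleph _).symm
  rw [hom]
  let κ := ℵ_ ((m : Ordinal.{0}) + 1)
  let T' : ℕ → ℕ → Set Ordinal.{0} := fun n k =>
    {ξ | ∃ hξ : ξ < κ.ord, (Ordinal.ToType.mk ⟨ξ, hξ⟩ : Idx κ) ∈ T n k}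
  -- cofinalities
  have hcofeq : ∀ (ξ : Ordinal.{0}) (hξ : ξ < κ.ord),
      Order.cof (Set.Iio (Ordinal.ToType.mk ⟨ξ, hξ⟩ : Idx κ)) = ξ.cof := by
    intro ξ hξ
    rw [Order.cof_Iio]
    exact congrArg _ (Ordinal.typein_enum _ _)
  -- stationarity below `δ`
  have hst : ∀ (δ : Ordinal.{0}) (hδ : δ < κ.ord) (n k : ℕ),
      IsStationary (Subtype.val ⁻¹' T' n k : Set (Set.Iio δ)) ↔
        k ∈ refl T (Ordinal.ToType.mk ⟨δ, hδ⟩ : Idx κ) n := by
    intro δ hδ n k
    let e : Set.Iio δ ≃o Set.Iio (Ordinal.ToType.mk ⟨δ, hδ⟩ : Idx κ) :=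
      { toFun := fun x => ⟨Ordinal.ToType.mk ⟨x.1, lt_trans (Set.mem_Iio.1 x.2) hδ⟩,
          Ordinal.ToType.mk.lt_iff_lt.2 x.2⟩
        invFun := fun y => ⟨(Ordinal.ToType.mk.symm y.1).1, by
          have h1 : y.1 < Ordinal.ToType.mk ⟨δ, hδ⟩ := y.2
          rw [← OrderIso.symm_apply_lt] at h1
          exact h1⟩
        left_inv := fun x => by simp
        right_inv := fun y => by simp
        map_rel_iff' := by
          intro a b
          simp }
    change _ ↔ IsStationary _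
    rw [← isStationary_image_iso e]
    apply Iff.of_eq
    congr 1
    ext y
    constructor
    · rintro ⟨x, ⟨_, hx⟩, rfl⟩
      exact hx
    · intro hy
      refine ⟨e.symm y, ⟨lt_trans (Set.mem_Iio.1 (e.symm y).2) hδ, ?_⟩, by simp⟩
      have h1 : (e (e.symm y)).1 = y.1 := by simp
      change (e (e.symm y)).1 ∈ T n k
      rw [h1]
      exact hy
  refine ⟨T', ?_, ?_, ?_, ?_⟩
  · rintro n k ξ ⟨hξ, h1⟩
    rw [← hcofeq ξ hξ]
    exact hT1 n k _ h1
  · intro n k
    have h1 := (isStationary_image_iso (Ordinal.ToType.mk (o := κ.ord)).symm).2 (hT2 n k)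
    refine h1.mono ?_
    rintro _ ⟨x, hx, rfl⟩
    refine ⟨(Ordinal.ToType.mk.symm x).2, ?_⟩
    simpa using hx
  · intro n k l
    rcases hT4 n k l with h1 | h1
    · exact Or.inl fun ξ hξ => ⟨hξ.1, h1 hξ.2⟩
    · exact Or.inr fun ξ hξ => ⟨hξ.1, h1 hξ.2⟩
  · intro δ δ' h1 h2 h3 h4
    rw [← hcofeq δ (h1.trans h2)] at h3
    rw [← hcofeq δ' h2] at h4
    filter_upwards [hT3 _ _ (Ordinal.ToType.mk.lt_iff_lt.2 h1) h3 h4] with n hn
    have h5 : ∀ (γ : Ordinal.{0}) (hγ : γ < κ.ord),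
        {k | IsStationary (Subtype.val ⁻¹' T' n k : Set (Set.Iio γ))} =
          refl T (Ordinal.ToType.mk ⟨γ, hγ⟩ : Idx κ) n := by
      intro γ hγ
      ext k
      exact hst γ hγ n k
    rw [h5 δ (h1.trans h2), h5 δ' h2]
    exact hn
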